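import Mathlib
import Pool.Agent.W202.AH.Def


/-! Blocks of increments with small discrepancy: the pointwise step. -/

open Complex

namespace Pool.Agent.W61.AHP7

/-- the exponential `e(x)` -/
noncomputable def e1 (x : ℝ) : ℂ := Complex.exp (((2 * Real.pi * x : ℝ) : ℂ) * I)

lemma e1_norm (x : ℝ) : ‖e1 x‖ = 1 := by
  unfold e1; exact Complex.norm_exp_ofReal_mul_I _

lemma e1_add (x y : ℝ) : e1 (x + y) = e1 x * e1 y := by
  unfold e1
  rw [← Complex.exp_add]
  congr 1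
  push_cast
  ring

lemma e1_int (p : ℤ) : e1 (p : ℝ) = 1 := by
  unfold e1
  have : (((2 * Real.pi * (p : ℝ) : ℝ) : ℂ) * I) = (p : ℂ) * (2 * Real.pi * I) := by
    push_cast; ring
  rw [this]
  exact Complex.exp_int_mul_two_pi_mul_I p

lemma e1_sub_one (x : ℝ) : ‖e1 x - 1‖ ≤ 2 * Real.pi * |x| := by
  unfold e1
  have h := Real.norm_exp_I_mul_ofReal_sub_one_le (x := 2 * Real.pi * x)
  rw [mul_comm] at h
  refine h.trans ?_
  rw [Real.norm_eq_abs, abs_mul, abs_of_pos Real.two_pi_pos]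

lemma e1_close (x y : ℝ) (p : ℤ) : ‖e1 x - e1 y‖ ≤ 2 * Real.pi * |x - y - p| := by
  have h1 : e1 x = e1 (x - y - p) * e1 y := by
    have : e1 x = e1 ((x - y - p) + y + p) := by congr 1; ring
    rw [this, e1_add, e1_add, e1_int, mul_one]
  have h2 : e1 x - e1 y = (e1 (x - y - p) - 1) * e1 y := by rw [h1]; ring
  rw [h2, norm_mul, e1_norm, mul_one]
  exact e1_sub_one _

/-- the increments of `w` follow `a` modulo `1/θ` -/
lemma follow (θ : ℝ) (hθ : 0 < θ) (w a : ℕ → ℝ) (n B : ℕ) (ε : ℝ)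
    (h : ∀ i : ℕ, i < B → ∃ k : ℤ, |w (n + i + 1) - w (n + i) - a i - k / θ| < ε) :
    ∀ j : ℕ, j ≤ B → ∃ p : ℤ,
      |θ * w (n + j) - (θ * w n + θ * ∑ i ∈ Finset.range j, a i) - p| ≤ θ * j * ε := by
  intro j
  induction j with
  | zero => intro _; exact ⟨0, by simp⟩
  | succ j ih =>
    intro hj
    obtain ⟨p, hp⟩ := ih (by omega)
    obtain ⟨k, hk⟩ := h j (by omega)
    refine ⟨p + k, ?_⟩
    have e : θ * w (n + (j + 1)) - (θ * w n + θ * ∑ i ∈ Finset.range (j + 1), a i) -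
        ((p + k : ℤ) : ℝ) =
        (θ * w (n + j) - (θ * w n + θ * ∑ i ∈ Finset.range j, a i) - p) +
          θ * (w (n + j + 1) - w (n + j) - a j - k / θ) := by
      rw [Finset.sum_range_succ]
      push_cast
      rw [← add_assoc]
      field_simp
      ring
    rw [e]
    refine (abs_add_le _ _).trans ?_
    rw [abs_mul, abs_of_pos hθ]
    have := mul_le_mul_of_nonneg_left hk.le hθ.le
    push_cast
    nlinarith

/-- the pointwise step -/
theorem core (θ : ℝ) (hθ : 0 < θ) (w : ℕ → ℝ) (κ : ℝ) (hκ : 0 < κ) (L B : ℕ) (hL : 1 ≤ L)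
    (ε : ℝ) (hε : 0 < ε) (hε' : ε ≤ κ / 2 / (2 * Real.pi * θ * (B + L : ℕ) * L + 1)) (n : ℕ)
    (hn : ¬ W202.AH.Good κ L B (fun j => e1 (θ * w j)) n) (a : ℕ → ℝ)
    (ha : ∃ c : ℂ, ∀ m l : ℕ, m + l ≤ B + L → l ≤ L →
        ‖∑ i ∈ Finset.range l, e1 (θ * ∑ j ∈ Finset.range (m + i), a j) - l * c‖ ≤
          κ / 2 * Real.sqrt L) :
    ∃ i : ℕ, i < B + L ∧ ∀ k : ℤ, ε ≤ |w (n + i + 1) - w (n + i) - a i - k / θ| := by
  by_contra hcon
  push Not at hcon
  obtain ⟨c, hc⟩ := ha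
  have hf := follow θ hθ w a n (B + L) ε (fun i hi => hcon i hi)
  apply hn
  refine ⟨e1 (θ * w n) * c, ?_⟩
  intro m l hm hl
  set D : ℝ := 2 * Real.pi * θ * (B + L : ℕ) * ε with hD
  have hpi := Real.pi_pos
  have hD0 : 0 ≤ D := by positivity
  have hterm : ∀ i ∈ Finset.range l,
      ‖e1 (θ * w (n + m + i)) - e1 (θ * w n) * e1 (θ * ∑ j ∈ Finset.range (m + i), a j)‖ ≤ D := by
    intro i hi
    have hil := Finset.mem_range.mp hi
    have hmi : m + i ≤ B + L := by omega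
    obtain ⟨p, hp⟩ := hf (m + i) hmi
    rw [← e1_add, add_assoc]
    refine (e1_close _ _ p).trans ?_
    have h1 : θ * ((m + i : ℕ) : ℝ) * ε ≤ θ * ((B + L : ℕ) : ℝ) * ε := by
      have : ((m + i : ℕ) : ℝ) ≤ ((B + L : ℕ) : ℝ) := by exact_mod_cast hmi
      have := mul_le_mul_of_nonneg_left this hθ.le
      exact mul_le_mul_of_nonneg_right this hε.le
    have h2 := hp.trans h1
    rw [hD]
    nlinarith
  have hsum : ‖∑ i ∈ Finset.range l, (e1 (θ * w (n + m + i)) -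
      e1 (θ * w n) * e1 (θ * ∑ j ∈ Finset.range (m + i), a j))‖ ≤ l * D := by
    refine (norm_sum_le _ _).trans ?_
    refine (Finset.sum_le_sum hterm).trans ?_
    simp
  have hdec : ∑ i ∈ Finset.range l, e1 (θ * w (n + m + i)) - l * (e1 (θ * w n) * c) =
      (∑ i ∈ Finset.range l, (e1 (θ * w (n + m + i)) -
        e1 (θ * w n) * e1 (θ * ∑ j ∈ Finset.range (m + i), a j))) +
      e1 (θ * w n) *
        (∑ i ∈ Finset.range l, e1 (θ * ∑ j ∈ Finset.range (m + i), a j) - l * c) := by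
    rw [Finset.sum_sub_distrib, mul_sub, Finset.mul_sum]
    ring
  have hmain : ‖∑ i ∈ Finset.range l, e1 (θ * w (n + m + i)) - l * (e1 (θ * w n) * c)‖ ≤
      l * D + κ / 2 * Real.sqrt L := by
    rw [hdec]
    refine (norm_add_le _ _).trans ?_
    rw [norm_mul, e1_norm, one_mul]
    exact add_le_add hsum (hc m l (by omega) hl)
  have hL1 : (1 : ℝ) ≤ Real.sqrt L := by
    rw [Real.one_le_sqrt]; exact_mod_cast hL
  have hden : 0 < 2 * Real.pi * θ * (B + L : ℕ) * L + 1 := by positivity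
  have hlD : l * D ≤ κ / 2 := by
    have h1 : (l : ℝ) * D ≤ L * D := by
      have : (l : ℝ) ≤ L := by exact_mod_cast hl
      exact mul_le_mul_of_nonneg_right this hD0
    refine h1.trans ?_
    have h2 := (le_div_iff₀ hden).mp hε'
    rw [hD]
    nlinarith
  refine hmain.trans ?_
  nlinarith

end Pool.Agent.W61.AHP7
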