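import Pool.Agent.W202.AH.Stm
import Pool.Agent.W61.AHP7.Core

/-! AHP-7: blocks of gaps avoid the patterns of low discrepancy. -/

open Filter

namespace Pool.Agent.W61.AHP7

theorem main : W202.AH.CorPattern := by
  intro θ hθ w hMN
  obtain ⟨κ, hκ, L0, h⟩ := hMN
  refine ⟨κ / 2, half_pos hκ, max L0 1, ?_⟩
  intro L hL
  obtain ⟨B, ε0, hε0, hN⟩ := h L (le_trans (le_max_left _ _) hL)
  have hL1 : 1 ≤ L := le_trans (le_max_right _ _) hL
  have hpi := Real.pi_pos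
  have hε1pos : 0 < κ / 2 / (2 * Real.pi * θ * (B + L : ℕ) * L + 1) := by positivity
  refine ⟨B + L, min ε0 (κ / 2 / (2 * Real.pi * θ * (B + L : ℕ) * L + 1)),
    lt_min hε0 hε1pos, ?_⟩
  filter_upwards [hN] with N hN
  refine (mul_le_mul_of_nonneg_right (min_le_left _ _) (Nat.cast_nonneg N)).trans
    (hN.trans ?_)
  refine Nat.cast_le.mpr (Set.ncard_le_ncard ?_ ?_)
  · rintro n ⟨h1, h2, h3⟩
    refine ⟨h1, h2, ?_⟩
    intro a ha
    exact core θ hθ w κ hκ L B hL1 _ (lt_min hε0 hε1pos) (min_le_right _ _) n h3 a ha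
  · refine Set.Finite.subset (Set.finite_Icc 1 N) ?_
    rintro n ⟨h1, h2, _⟩
    exact ⟨h1, h2⟩

end Pool.Agent.W61.AHP7
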